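import Pool.Agent.Horrocks46U.Prj

/-!
Matrix coordinates and further variables: the Koszul form of the inequality.
-/

open Finset

set_option linter.unusedSectionVars false

namespace Horr46

open Horr TG39

section indep

variable {ι : Type*} [Fintype ι] [DecidableEq ι] {k : Type*} [Field k]
  {V : Type*} [AddCommGroup V] [Module k V] [Module.Finite k V]

/-- cycles whose classes form a basis -/
lemma exists_indep (E : Inc ι) (a : ι → Module.End k V) (q : ℕ) :
    ∃ w : Fin (khn E a q) → (Finset ι → V), (∀ s, w s ∈ kZ E a q) ∧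
      ∀ r : Fin (khn E a q) → k, ∑ s, r s • w s ∈ kB E a q → ∀ s, r s = 0 := by
  let b : Module.Basis (Fin (khn E a q)) k (kH E a q) := Module.finBasis k (kH E a q)
  have h1 : ∀ s, ∃ z : ↥(kZ E a q), kHmk E a q z = b s := fun s => kHmk_surjective E a q (b s)
  choose z hz using h1
  refine ⟨fun s => z s, fun s => (z s).2, ?_⟩
  intro r hr
  have h2 : kHmk E a q (∑ s, r s • z s) = 0 := by
    rw [kHmk_eq_zero]
    convert hr using 1
    rw [AddSubmonoidClass.coe_finsetSum]
    rfl
  rw [map_sum] at h2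
  have h3 : ∑ s, r s • b s = 0 := by
    rw [← h2]
    refine Finset.sum_congr rfl fun s _ => ?_
    rw [map_smul, hz]
  exact Fintype.linearIndependent_iff.1 b.linearIndependent r h3

end indep

variable {k : Type*} [Field k] [CharZero k]
variable {o : Type} [Fintype o] [DecidableEq o] {a b : o → ℕ}
variable {Y : Type} [Fintype Y] [DecidableEq Y]
variable {M : Type*} [AddCommGroup M] [Module k M]

/-- The data at a tuple of Young diagrams: the weight space and its inclusion and projection. -/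
structure HWData (A : Idx a b ⊕ Y → Module.End k M) (ρ : GlGl k a b →ₗ[k] Module.End k M)
    (hρy : ∀ x y, ρ x * A (Sum.inr y) = A (Sum.inr y) * ρ x) (T : Finset (Idx a b)) where
  t : JJ a b → k
  c : CData A (yOp A ρ hρy t) (T.map Function.Embedding.inl)
  ne : wsp ρ t ≠ ⊥
  inc : ∀ v, c.inc v = (v : M)
  raise : ∀ u v, bl u = bl v → pos u < pos v → ∀ w ∈ wsp ρ t, ρ (el k u v) w = 0
  lower : ∀ u v, bl u = bl v → pos u < pos v → ∀ z, c.pr (ρ (el k v u) z) = 0

lemma ou_disjSum (T : Finset (Idx a b)) (J : Finset Y) :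
    ou (ySet a b Y) (T.disjSum J) = T.map Function.Embedding.inl := by
  ext x
  rw [mem_ou]
  rcases x with x | x
  · constructor
    · intro h
      have h1 : x ∈ T := by simpa using h.1
      simpa using h1
    · intro h
      have h1 : x ∈ T := by simpa using h
      exact ⟨by simpa using h1, inl_notMem_ySet x⟩
  · constructor
    · intro h
      exact absurd (mem_ySet.2 ⟨x, rfl⟩) h.2
    · intro h
      simp at h

/-- a set of variables `y`, as a subset of `Y` -/
def toY (V : Finset ↥(ySet a b Y)) : Finset Y :=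
  univ.filter fun y => (⟨Sum.inr y, mem_ySet.2 ⟨y, rfl⟩⟩ : ↥(ySet a b Y)) ∈ V

lemma dn_disjSum (T : Finset (Idx a b)) (V : Finset ↥(ySet a b Y)) :
    dn (ySet a b Y) (T.disjSum (toY V)) = V := by
  ext z
  obtain ⟨z, hz⟩ := z
  obtain ⟨y, rfl⟩ := mem_ySet.1 hz
  rw [mem_dn]
  simp [toY]

lemma mem_of_ou {U : Finset (Idx a b ⊕ Y)} {T : Finset (Idx a b)}
    (h : ou (ySet a b Y) U = T.map Function.Embedding.inl) (l : Idx a b) :
    Sum.inl l ∈ U ↔ l ∈ T := by
  constructor
  · intro h1
    have h2 : (Sum.inl l : Idx a b ⊕ Y) ∈ ou (ySet a b Y) U :=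
      mem_ou.2 ⟨h1, inl_notMem_ySet l⟩
    rw [h] at h2
    simpa using h2
  · intro h1
    have h2 : (Sum.inl l : Idx a b ⊕ Y) ∈ ou (ySet a b Y) U := by
      rw [h]
      simpa using h1
    exact (mem_ou.1 h2).1

/-- the matrix of an upper triangular element on a set with diagram `T` -/
lemma uMat_up {U : Finset (Idx a b ⊕ Y)} {T : Finset (Idx a b)}
    (h : ou (ySet a b Y) U = T.map Function.Embedding.inl) (x : GlGl k a b)
    (hx : ∀ l ∈ T, ∀ m, m ∉ T → actMat x m l = 0) :
    (∀ l ∈ U, ∀ m, m ∉ U → uMat Y x m l = 0) ∧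
      ∑ l ∈ U, uMat Y x l l = ∑ l ∈ T, actMat x l l := by
  constructor
  · rintro (l | l) hl (m | m) hm
    · exact hx l ((mem_of_ou h l).1 hl) m (fun h1 => hm ((mem_of_ou h m).2 h1))
    · rfl
    · rfl
    · rfl
  · have h1 : ∑ l ∈ U, uMat Y x l l = ∑ l ∈ T.map Function.Embedding.inl, uMat Y x l l := by
      rw [← h, ou, Finset.sum_filter]
      refine Finset.sum_congr rfl fun l _ => ?_
      by_cases hl : l ∈ ySet a b Y
      · rw [if_neg (not_not.2 hl)]
        obtain ⟨y, rfl⟩ := mem_ySet.1 hl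
        rfl
      · rw [if_pos hl]
    rw [h1, Finset.sum_map]
    rfl

namespace HWData

variable {A : Idx a b ⊕ Y → Module.End k M} {ρ : GlGl k a b →ₗ[k] Module.End k M}
  {hρy : ∀ x y, ρ x * A (Sum.inr y) = A (Sum.inr y) * ρ x} {T : Finset (Idx a b)}
  (D : HWData A ρ hρy T)

/-- the action on the chains at the diagram -/
lemma tot_I (hT : IsLow T) (E : Inc (Idx a b ⊕ Y)) (x : GlGl k a b)
    (hx : ∀ l ∈ T, ∀ m, m ∉ T → actMat x m l = 0) (r : k)
    (hr : ∀ w ∈ wsp ρ D.t, ρ x w = r • w) (f : Finset ↥(ySet a b Y) → ↥(wsp ρ D.t)) :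
    tot (uAct k a b Y) E ρ x (D.c.I f) = ((∑ l ∈ T, actMat x l l) + r) • D.c.I f := by
  rw [tot_apply, uAct_D, add_smul]
  congr 1
  · refine Psi_supp E _ _ _ fun U hU => ?_
    have h1 : ou (ySet a b Y) U = T.map Function.Embedding.inl := by
      by_contra h2
      apply hU
      rw [D.c.I_apply, if_neg h2]
    exact uMat_up h1 x hx
  · funext U
    rw [pt_apply, Pi.smul_apply, D.c.I_apply]
    split_ifs with h
    · rw [D.inc]
      exact hr _ (f _).2
    · rw [map_zero, smul_zero]

/-- the chains at the diagram are singular vectors -/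
lemma isSing_I (hT : IsLow T) (E : Inc (Idx a b ⊕ Y)) (f : Finset ↥(ySet a b Y) → ↥(wsp ρ D.t)) :
    IsSing bl pos (fun u v => tot (uAct k a b Y) E ρ (el k u v))
      (fun u => (∑ l ∈ T, actMat (el k u u) l l) + D.t u) (D.c.I f) := by
  refine ⟨fun u => ?_, fun u v huv hlt => ?_⟩
  · refine D.tot_I hT E _ ?_ _ (fun w hw => hw u) f
    intro l hl m hm
    rw [actMat_el_diag, if_neg]
    rintro rfl
    exact hm hl
  · have h1 := D.tot_I hT E (el k u v) (hT.up _ (el_mem_up u v hlt.le)) 0
      (fun w hw => by rw [D.raise u v huv hlt w hw, zero_smul]) f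
    rw [h1, add_zero]
    have h2 : ∑ l ∈ T, actMat (el k u v) l l = 0 := by
      refine Finset.sum_eq_zero ?_
      rintro ⟨c, p, q⟩ _
      have hne : u ≠ v := by
        rintro rfl
        exact lt_irrefl _ hlt
      have e1 : (el k u v).1 c p p = 0 := by
        rw [el_fst, if_neg]
        rintro ⟨h3, h4⟩
        exact hne (h3.trans h4.symm)
      have e2 : (el k u v).2 c q q = 0 := by
        rw [el_snd, if_neg]
        rintro ⟨h3, h4⟩
        exact hne (h3.trans h4.symm)
      rw [actMat_same]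
      change (el k u v).1 c p p * _ + _ * (el k u v).2 c q q = 0
      rw [e1, e2, zero_mul, mul_zero, add_zero]
    rw [h2, zero_smul]

lemma up_I (hT : IsLow T) (E : Inc (Idx a b ⊕ Y)) (f : Finset ↥(ySet a b Y) → ↥(wsp ρ D.t))
    (z : GlGl k a b) (hz : z ∈ (uAct k a b Y).up) :
    ∃ r : k, tot (uAct k a b Y) E ρ z (D.c.I f) = r • D.c.I f := by
  let Y' : Submodule k (GlGl k a b) :=
    { carrier := {z | ∃ r : k, tot (uAct k a b Y) E ρ z (D.c.I f) = r • D.c.I f}
      add_mem' := by
        rintro x y ⟨r, hr⟩ ⟨s, hs⟩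
        exact ⟨r + s, by rw [map_add, LinearMap.add_apply, hr, hs, add_smul]⟩
      zero_mem' := ⟨0, by rw [map_zero, zero_smul, LinearMap.zero_apply]⟩
      smul_mem' := by
        rintro t x ⟨r, hr⟩
        exact ⟨t * r, by rw [map_smul, LinearMap.smul_apply, hr, smul_smul]⟩ }
  refine up_mem z hz Y' ?_
  intro u v huv hle
  have h := D.isSing_I hT E f
  rcases hle.lt_or_eq with hlt | heq
  · exact ⟨0, by rw [zero_smul]; exact h.2 u v huv hlt⟩
  · have h1 := bl_pos_inj u v huv heq
    subst h1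
    exact ⟨_, h.1 u⟩

lemma pr_low (y : GlGl k a b) (hy : y ∈ (blk k a b).low) (z : M) : D.c.pr (ρ y z) = 0 := by
  let Y' : Submodule k (GlGl k a b) :=
    { carrier := {y | ∀ z, D.c.pr (ρ y z) = 0}
      add_mem' := by
        intro x y hx hy z
        rw [map_add, LinearMap.add_apply, map_add, hx z, hy z, add_zero]
      zero_mem' := by
        intro z
        rw [map_zero, LinearMap.zero_apply, map_zero]
      smul_mem' := by
        intro r x hx z
        rw [map_smul, LinearMap.smul_apply, map_smul, hx z, smul_zero] }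
  have h1 : y ∈ Y' := low_mem y hy Y' fun u v huv hlt => D.lower u v huv hlt
  exact h1 z

/-- what a nonzero chain at the diagram generates -/
lemma finrank_gen_I [Module.Finite k M] {E : Inc (Idx a b ⊕ Y)} {E₀ : Inc (Idx a b)}
    (hE : RestrTo E E₀) (f : Finset ↥(ySet a b Y) → ↥(wsp ρ D.t)) (hf : f ≠ 0) :
    Module.finrank k (gen (tot (blk k a b) E₀ (0 : GlGl k a b →ₗ[k] Module.End k k) ''
      (blk k a b).low) (Pi.single T 1)) ≤
    Module.finrank k (gen (tot (uAct k a b Y) E ρ '' (uAct k a b Y).low) (D.c.I f)) := by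
  obtain ⟨V, hV⟩ : ∃ V, f V ≠ 0 := by
    by_contra h
    push Not at h
    exact hf (funext h)
  obtain ⟨ψ, hψ⟩ : ∃ ψ : Module.Dual k ↥(wsp ρ D.t), ψ (f V) ≠ 0 := by
    by_contra h
    push Not at h
    exact hV ((Module.forall_dual_apply_eq_zero_iff k (f V)).1 h)
  refine finrank_gen_ge hE ρ (D.c.I f) T (toY V) (f V : M) ?_ ?_ ((ψ (f V))⁻¹ • ψ ∘ₗ D.c.pr) ?_ ?_
  · rw [D.c.I_apply, ou_disjSum, if_pos rfl, dn_disjSum, D.inc]
  · intro U hU
    rw [D.c.I_apply, ou_disjSum, if_neg]
    intro h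
    exact hU (Finset.map_injective _ h)
  · rw [LinearMap.smul_apply, LinearMap.comp_apply, ← D.inc, D.c.pr_inc, smul_eq_mul,
      inv_mul_cancel₀ hψ]
  · intro y hy z
    rw [LinearMap.smul_apply, LinearMap.comp_apply, D.pr_low y hy, map_zero, smul_zero]

end HWData

end Horr46
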