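import Pool.Agent.Horrocks46.Equi
import Pool.Agent.TG39.CData

/-!
Matrix coordinates and further variables: the space of vectors of a given diagonal weight.
-/

open Finset

set_option linter.unusedSectionVars false

namespace Horr46

open Horr

variable {k : Type*} [Field k]
variable {o : Type} [Fintype o] [DecidableEq o] {a b : o → ℕ}
variable {Y : Type} [Fintype Y] [DecidableEq Y]
variable {M : Type*} [AddCommGroup M] [Module k M]

/-- the set of the variables `y` -/
def ySet (a b : o → ℕ) (Y : Type) [Fintype Y] : Finset (Idx a b ⊕ Y) :=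
  univ.map Function.Embedding.inr

lemma mem_ySet {x : Idx a b ⊕ Y} : x ∈ ySet a b Y ↔ ∃ y, x = Sum.inr y := by
  simp only [ySet, mem_map, mem_univ, true_and, Function.Embedding.inr_apply, eq_comm]

lemma inl_notMem_ySet (l : Idx a b) : (Sum.inl l : Idx a b ⊕ Y) ∉ ySet a b Y := by
  rw [mem_ySet]
  rintro ⟨y, hy⟩
  exact absurd hy (by simp)

/-- the space of vectors of diagonal weight `t` -/
def wsp (ρ : GlGl k a b →ₗ[k] Module.End k M) (t : JJ a b → k) : Submodule k M where
  carrier := {v | ∀ u, ρ (el k u u) v = t u • v}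
  add_mem' := by
    intro v w hv hw u
    rw [map_add, hv u, hw u, smul_add]
  zero_mem' := by
    intro u
    rw [map_zero, smul_zero]
  smul_mem' := by
    intro r v hv u
    rw [map_smul, hv u, smul_comm]

lemma mem_wsp {ρ : GlGl k a b →ₗ[k] Module.End k M} {t : JJ a b → k} {v : M} :
    v ∈ wsp ρ t ↔ ∀ u, ρ (el k u u) v = t u • v := Iff.rfl

lemma mem_wsp_of_comm (ρ : GlGl k a b →ₗ[k] Module.End k M) (t : JJ a b → k) (B : Module.End k M)
    (hB : ∀ u, ρ (el k u u) * B = B * ρ (el k u u)) {v : M} (hv : v ∈ wsp ρ t) :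
    B v ∈ wsp ρ t := by
  intro u
  have h := LinearMap.congr_fun (hB u) v
  rw [Module.End.mul_apply, Module.End.mul_apply, hv u, map_smul] at h
  exact h

variable (A : Idx a b ⊕ Y → Module.End k M) (ρ : GlGl k a b →ₗ[k] Module.End k M)

/-- the variables `y` on the space of vectors of weight `t` -/
def yOp (hρy : ∀ x y, ρ x * A (Sum.inr y) = A (Sum.inr y) * ρ x) (t : JJ a b → k)
    (z : ↥(ySet a b Y)) : Module.End k ↥(wsp ρ t) :=
  (A z).restrict fun _ hv => mem_wsp_of_comm ρ t _ (fun u => by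
    obtain ⟨y, hy⟩ := mem_ySet.1 z.2
    rw [hy]
    exact hρy _ y) hv

lemma yOp_apply (hρy : ∀ x y, ρ x * A (Sum.inr y) = A (Sum.inr y) * ρ x) (t : JJ a b → k)
    (z : ↥(ySet a b Y)) (v : ↥(wsp ρ t)) : (yOp A ρ hρy t z v : M) = A z v := rfl

end Horr46
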