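import Pool.Agent.Horrocks46.Abs

/-!
Koszul homology of equivariant modules: the main estimate for a family of cycles.
-/

open Finset

set_option linter.unusedSectionVars false

namespace Horr46

open Horr

variable {ι : Type*} [Fintype ι] [DecidableEq ι]
variable {k : Type*} [Field k]
variable {g : Type*} [AddCommGroup g] [Module k g]

/-- **Main estimate for families.** -/
theorem sum_le_khn_of_fam (L : Act ι k g) (E : Inc ι) {M : Type*} [AddCommGroup M] [Module k M]
    [Module.Finite k M] (a : ι → Module.End k M) (ha : ∀ i j, a i * a j = a j * a i)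
    (ρ : g →ₗ[k] Module.End k M) (hρ : ∀ x y, ρ (L.br x y) = ρ x * ρ y - ρ y * ρ x)
    (hρa : ∀ x l, ρ x * a l - a l * ρ x = ∑ m, L.D x m l • a m)
    (j : ℕ) {S : Type*} [Fintype S] [DecidableEq S] (c : S → Finset ι → M)
    (hcZ : ∀ s, c s ∈ kZ E a j)
    (hcup : ∀ s, ∀ z ∈ L.up, ∃ r : k, tot L E ρ z (c s) = r • c s)
    (hind : ∀ r : S → k, ∑ s, r s • c s ∈ kB E a j → ∀ s, r s = 0)
    (d : S → ℕ) (hd : ∀ s, d s ≤ Module.finrank k (gen (tot L E ρ '' L.low) (c s)))
    (hirr : ∀ K : Submodule k (S → Finset ι → M), K ≠ ⊥ →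
      (∀ x, ∀ f ∈ K, (fun s => tot L E ρ x (f s)) ∈ K) →
      (∀ f ∈ K, ∀ s, f s ∈ gen (tot L E ρ '' L.low) (c s)) →
      ∃ f ∈ K, f ≠ 0 ∧ ∀ s, ∃ r : k, f s = r • c s) :
    ∑ s, d s ≤ khn E a j := by
  classical
  let TM := tot L E ρ
  have hTM : ∀ x y, TM x * TM y - TM y * TM x = TM (L.br x y) := tot_br L E ρ hρ
  let G : S → Submodule k (Finset ι → M) := fun s => gen (TM '' L.low) (c s)
  have hGall : ∀ s, ∀ x, ∀ z ∈ G s, TM x z ∈ G s := by
    intro s x z hz
    exact gen_stable_all L.br TM hTM L.low L.up L.dec (c s) (hcup s) x hz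
  have hdeg : ∀ x i f, f ∈ kdeg k ι M i → TM x f ∈ kdeg k ι M i := by
    intro x i f hf
    exact Submodule.add_mem _ (Psi_mem_kdeg E _ hf) (pt_mem_kdeg _ hf)
  have hcomm : ∀ x f, TM x (kD E a f) = kD E a (TM x f) := by
    intro x f
    exact LinearMap.congr_fun (tot_kD E a (L.D x) (ρ x) (hρa x)) f
  have hGZ : ∀ s, G s ≤ kZ E a j := by
    intro s
    refine gen_le (hcZ s) ?_
    rintro _ ⟨y, _, rfl⟩ z hz
    rw [mem_kZ] at hz ⊢
    exact ⟨hdeg y j z hz.1, by rw [← hcomm, hz.2, map_zero]⟩
  -- boundaries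
  have hBst : ∀ x, ∀ b ∈ kB E a j, TM x b ∈ kB E a j := by
    rintro x _ ⟨f, hf, rfl⟩
    rw [hcomm]
    exact ⟨TM x f, hdeg x (j + 1) f hf, rfl⟩
  -- the crucial independence statement
  have hK : ∀ f : S → Finset ι → M, (∀ s, f s ∈ G s) → ∑ s, f s ∈ kB E a j → f = 0 := by
    let K : Submodule k (S → Finset ι → M) :=
      { carrier := {f | (∀ s, f s ∈ G s) ∧ ∑ s, f s ∈ kB E a j}
        add_mem' := by
          rintro f g ⟨h1, h2⟩ ⟨h3, h4⟩
          refine ⟨fun s => Submodule.add_mem _ (h1 s) (h3 s), ?_⟩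
          have : ∑ s, (f + g) s = (∑ s, f s) + ∑ s, g s := by
            rw [← Finset.sum_add_distrib]
            rfl
          rw [this]
          exact Submodule.add_mem _ h2 h4
        zero_mem' := by
          refine ⟨fun s => Submodule.zero_mem _, ?_⟩
          have : ∑ s : S, (0 : S → Finset ι → M) s = 0 := Finset.sum_const_zero
          rw [this]
          exact Submodule.zero_mem _
        smul_mem' := by
          rintro r f ⟨h1, h2⟩
          refine ⟨fun s => Submodule.smul_mem _ _ (h1 s), ?_⟩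
          have : ∑ s, (r • f) s = r • ∑ s, f s := by
            rw [Finset.smul_sum]
            rfl
          rw [this]
          exact Submodule.smul_mem _ _ h2 }
    have hKbot : K = ⊥ := by
      by_contra hne
      have hKst : ∀ x, ∀ f ∈ K, (fun s => tot L E ρ x (f s)) ∈ K := by
        rintro x f ⟨h1, h2⟩
        refine ⟨fun s => hGall s x _ (h1 s), ?_⟩
        have h3 : (∑ s, (fun s : S => tot L E ρ x (f s)) s) = TM x (∑ s, f s) := by
          rw [map_sum]
        rw [h3]
        exact hBst x _ h2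
      obtain ⟨f, hf, hf0, hf1⟩ := hirr K hne hKst fun f hf s => hf.1 s
      choose r hr using hf1
      apply hf0
      have h1 : ∀ s, r s = 0 := by
        refine hind r ?_
        have h2 := hf.2
        rw [Finset.sum_congr rfl fun s _ => hr s] at h2
        exact h2
      funext s
      rw [hr s, h1 s, zero_smul]
      rfl
    intro f h1 h2
    have h3 : f ∈ K := ⟨h1, h2⟩
    rw [hKbot] at h3
    exact (Submodule.mem_bot k).1 h3
  -- the sum map
  let s : (∀ t : S, G t) →ₗ[k] (Finset ι → M) :=
    { toFun := fun f => ∑ t, (f t : Finset ι → M)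
      map_add' := by
        intro f g
        rw [← Finset.sum_add_distrib]
        rfl
      map_smul' := by
        intro r f
        rw [RingHom.id_apply, Finset.smul_sum]
        rfl }
  have hs : ∀ f, s f ∈ kB E a j → f = 0 := by
    intro f hf
    have h1 := hK (fun t => (f t : Finset ι → M)) (fun t => (f t).2) hf
    funext t
    exact Subtype.ext (congrFun h1 t)
  have hsinj : Function.Injective s := by
    refine (injective_iff_map_eq_zero s).2 fun f hf => hs f ?_
    rw [hf]
    exact Submodule.zero_mem _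
  have h1 : ∑ t, d t ≤ Module.finrank k (LinearMap.range s) := by
    calc ∑ t, d t ≤ ∑ t : S, Module.finrank k (G t) := Finset.sum_le_sum fun t _ => hd t
      _ = Module.finrank k (∀ t : S, G t) := (Module.finrank_pi_fintype k).symm
      _ = _ := (LinearMap.finrank_range_of_inj hsinj).symm
  have h2 : LinearMap.range s ⊓ kB E a j = ⊥ := by
    rw [eq_bot_iff]
    rintro _ ⟨⟨f, rfl⟩, hf⟩
    rw [hs f hf, map_zero]
    exact Submodule.zero_mem _
  have h3 : LinearMap.range s ⊔ kB E a j ≤ kZ E a j := by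
    refine sup_le ?_ (kB_le_kZ E a ha j)
    rintro _ ⟨f, rfl⟩
    exact Submodule.sum_mem _ fun t _ => hGZ t (f t).2
  have h4 := Submodule.finrank_sup_add_finrank_inf_eq (LinearMap.range s) (kB E a j)
  rw [h2, finrank_bot] at h4
  have h5 := Submodule.finrank_mono h3
  have h6 := khn_add E a ha j
  omega

/-- **Dimension by projection**: a linear map `π` which intertwines the lowering operators up to
the trivial action and sends `c` to `c'` gives an upper bound for what `c'` generates. -/
lemma finrank_gen_le {W W' : Type*} [AddCommGroup W] [Module k W] [Module.Finite k W]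
    [AddCommGroup W'] [Module k W'] (T : g →ₗ[k] Module.End k W) (T' : g →ₗ[k] Module.End k W')
    (low : Set g) (π : W →ₗ[k] W') (hπ : ∀ y ∈ low, ∀ w, π (T y w) = T' y (π w)) (c : W) (c' : W')
    (hc : π c = c') :
    Module.finrank k (gen (T' '' low) c') ≤ Module.finrank k (gen (T '' low) c) := by
  have h1 : gen (T' '' low) c' ≤ (gen (T '' low) c).map π := by
    refine gen_le ⟨c, mem_gen _ _, hc⟩ ?_
    rintro _ ⟨y, hy, rfl⟩ _ ⟨w, hw, rfl⟩
    exact ⟨T y w, gen_stable (Set.mem_image_of_mem _ hy) hw, hπ y hy w⟩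
  exact (Submodule.finrank_mono h1).trans (Submodule.finrank_map_le _ _)

end Horr46
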