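import Pool.Agent.Horrocks46U.Asm

/-!
Matrix coordinates and further variables: the Koszul form of the inequality.
-/

open Finset

set_option linter.unusedSectionVars false

namespace Horr46

open Horr TG39

variable {k : Type*} [Field k] [CharZero k]
variable {o : Type} [Fintype o] [DecidableEq o] {a b : o → ℕ}
variable {Y : Type} [Fintype Y] [DecidableEq Y]

/-- the dimension of what the diagram `T` generates in the exterior algebra -/
noncomputable def dT (k : Type*) [Field k] (E₀ : Inc (Idx a b)) (T : Finset (Idx a b)) : ℕ :=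
  Module.finrank k (gen (tot (blk k a b) E₀ (0 : GlGl k a b →ₗ[k] Module.End k k) ''
      (blk k a b).low) (Pi.single T 1))

lemma choose_le_sum_dT (E₀ : Inc (Idx a b)) (j : ℕ) :
    (Fintype.card (Idx a b)).choose j ≤ ∑ T ∈ lowSets a b j, dT k E₀ T := by
  have h2 : Module.finrank k (kdeg k (Idx a b) k j) = (Fintype.card (Idx a b)).choose j := by
    rw [finrank_kdeg, Module.finrank_self, mul_one]
  calc (Fintype.card (Idx a b)).choose j = Module.finrank k (kdeg k (Idx a b) k j) := h2.symm
    _ ≤ _ := Submodule.finrank_mono (span_low E₀ j)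
    _ ≤ _ := finrank_sup_le_sum (lowSets a b j) _
    _ = ∑ T ∈ lowSets a b j, dT k E₀ T := rfl

/-- Koszul homology of modules over matrix coordinates and further variables. -/
theorem choose_le_khn_of_hw {E : Inc (Idx a b ⊕ Y)} {E₀ : Inc (Idx a b)} (hE : RestrTo E E₀)
    {M : Type*} [AddCommGroup M] [Module k M] [Module.Finite k M]
    (A : Idx a b ⊕ Y → Module.End k M) (hA : ∀ i j, A i * A j = A j * A i)
    (ρ : GlGl k a b →ₗ[k] Module.End k M)
    (hρ : ∀ x y, ρ (x * y - y * x) = ρ x * ρ y - ρ y * ρ x)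
    (hρX : ∀ x l, ρ x * A (Sum.inl l) - A (Sum.inl l) * ρ x =
      ∑ m, actMat x m l • A (Sum.inl m))
    (hρy : ∀ x y, ρ x * A (Sum.inr y) = A (Sum.inr y) * ρ x)
    {I : Type*} [Fintype I] (e : Module.Basis I k M) (χ : I → JJ a b → k)
    (he : ∀ i u, ρ (el k u u) (e i) = χ i u • e i)
    (hD : ∀ T, IsLow T → Nonempty (HWData A ρ hρy T))
    (hY : ∀ t, wsp ρ t ≠ ⊥ → ∀ (E' : Inc ↥(ySet a b Y)) (q : ℕ),
      (Fintype.card Y).choose q ≤ khn E' (yOp A ρ hρy t) q) (i : ℕ) :
    (Fintype.card (Idx a b) + Fintype.card Y).choose i ≤ khn E A i := by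
  classical
  let P : Type := Σ j : Fin (i + 1), ↥(lowSets a b j)
  have hlow : ∀ p : P, IsLow (p.2 : Finset (Idx a b)) := fun p => (mem_lowSets.1 p.2.2).2
  have hcard : ∀ p : P, (p.2 : Finset (Idx a b)).card = p.1 := fun p => (mem_lowSets.1 p.2.2).1
  let D : ∀ p : P, HWData A ρ hρy p.2 := fun p => (hD _ (hlow p)).some
  have hJ : ∀ p : P, ((p.2 : Finset (Idx a b)).map
      (Function.Embedding.inl : Idx a b ↪ Idx a b ⊕ Y)).card + (i - p.1) = i := by
    intro p
    rw [card_map, hcard]
    have := p.1.2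
    omega
  choose w hwZ hwB using fun p : P => exists_indep (E.restr (ySet a b Y) _ (D p).c.disj)
    (yOp A ρ hρy (D p).t) (i - p.1)
  let S : Type := Σ p : P, Fin (khn (E.restr (ySet a b Y) _ (D p).c.disj)
    (yOp A ρ hρy (D p).t) (i - p.1))
  let c : S → Finset (Idx a b ⊕ Y) → M := fun s => (D s.1).c.I (w s.1 s.2)
  have hne : ∀ s : S, w s.1 s.2 ≠ 0 := by
    intro s h0
    have h1 := hwB s.1 (Pi.single s.2 1) (by
      rw [Finset.sum_eq_single s.2]
      · rw [Pi.single_eq_same, one_smul, h0]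
        exact Submodule.zero_mem _
      · intro t _ ht
        rw [Pi.single_eq_of_ne ht, zero_smul]
      · intro h
        exact absurd (mem_univ _) h) s.2
    rw [Pi.single_eq_same] at h1
    exact one_ne_zero h1
  let θ := tot (uAct k a b Y) E ρ
  have hθ : ∀ x y, θ (x * y - y * x) = θ x * θ y - θ y * θ x := fun x y =>
    (tot_br (uAct k a b Y) E ρ hρ x y).symm
  have hfam := glFam_of θ hθ
  -- the adapted basis of the space of chains
  let eC : Module.Basis (Σ _ : Finset (Idx a b ⊕ Y), I) k (Finset (Idx a b ⊕ Y) → M) :=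
    Pi.basis fun _ => e
  have heC : ∀ i, eC i = Pi.single i.1 (e i.2) := by
    rintro ⟨T, i⟩
    exact Pi.basis_apply _ _
  let χC : (Σ _ : Finset (Idx a b ⊕ Y), I) → JJ a b → k := fun i u =>
    (∑ l ∈ i.1, uMat Y (el k u u) l l) + χ i.2 u
  have hχC : ∀ i u, θ (el k u u) (eC i) = χC i u • eC i := by
    rintro ⟨T, i⟩ u
    rw [heC]
    change Psi k E (uMat Y (el k u u)) (Pi.single T (e i)) + pt (ρ (el k u u)) (Pi.single T (e i))
      = _
    rw [add_smul, Psi_single E _ T]
    · congr 1
      funext U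
      rw [pt_apply, Pi.smul_apply]
      by_cases hU : U = T
      · subst hU
        rw [Pi.single_eq_same, he]
      · rw [Pi.single_eq_of_ne hU, map_zero, smul_zero]
    · rintro (l | l) hl (m | m) hm
      · change actMat (el k u u) m l = 0
        rw [actMat_el_diag, if_neg]
        rintro rfl
        exact hm hl
      · rfl
      · rfl
      · rfl
  have hmain := sum_le_khn_of_fam (uAct k a b Y) E A hA ρ hρ ?_ i c ?_ ?_ ?_
    (fun s => dT k E₀ s.1.2) ?_ ?_
  · refine le_trans ?_ hmain
    rw [Fintype.sum_sigma]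
    have h1 : ∀ p : P, (Fintype.card Y).choose (i - p.1) * dT k E₀ p.2 ≤
        ∑ _s : Fin (khn (E.restr (ySet a b Y) _ (D p).c.disj) (yOp A ρ hρy (D p).t) (i - p.1)),
          dT k E₀ p.2 := by
      intro p
      rw [Finset.sum_const, card_univ, Fintype.card_fin, smul_eq_mul]
      exact Nat.mul_le_mul_right _ (hY _ (D p).ne _ _)
    refine le_trans ?_ (Finset.sum_le_sum fun p _ => h1 p)
    rw [Fintype.sum_sigma, Nat.add_choose_eq, Finset.Nat.sum_antidiagonal_eq_sum_range_succ
      (fun x y => (Fintype.card (Idx a b)).choose x * (Fintype.card Y).choose y), Finset.sum_range]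
    refine Finset.sum_le_sum fun j _ => ?_
    change _ ≤ ∑ T : ↥(lowSets a b j), (Fintype.card Y).choose (i - j) * dT k E₀ T.1
    rw [← Finset.mul_sum, mul_comm]
    refine Nat.mul_le_mul_left _ ?_
    rw [Finset.sum_coe_sort (lowSets a b j) (fun T => dT k E₀ T)]
    exact choose_le_sum_dT E₀ j
  · rintro x (l | y)
    · rw [hρX, Fintype.sum_sum_type]
      have h1 : ∀ y : Y, (uAct k a b Y).D x (Sum.inr y) (Sum.inl l) • A (Sum.inr y) = 0 := by
        intro y
        change (0 : k) • A (Sum.inr y) = 0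
        rw [zero_smul]
      rw [Finset.sum_congr rfl fun y _ => h1 y, Finset.sum_const_zero, add_zero]
      rfl
    · rw [hρy, sub_self, Fintype.sum_sum_type]
      symm
      rw [Finset.sum_eq_zero, Finset.sum_eq_zero, add_zero]
      · intro y' _
        change (0 : k) • A (Sum.inr y') = 0
        rw [zero_smul]
      · intro m _
        change (0 : k) • A (Sum.inl m) = 0
        rw [zero_smul]
  · intro s
    refine mem_kZ.2 ⟨?_, ?_⟩
    · have h1 := (D s.1).c.I_kdeg (mem_kZ.1 (hwZ s.1 s.2)).1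
      rw [hJ] at h1
      exact h1
    · change kD E A ((D s.1).c.I (w s.1 s.2)) = 0
      rw [(D s.1).c.I_kD E, (mem_kZ.1 (hwZ s.1 s.2)).2, map_zero]
  · intro s z hz
    exact (D s.1).up_I (hlow s.1) E _ z hz
  · rintro r ⟨g, hg, hgf⟩ ⟨p, s⟩
    have hR : (D p).c.R (∑ s : S, r s • c s) = ∑ t, r ⟨p, t⟩ • w p t := by
      rw [map_sum, Fintype.sum_sigma, Finset.sum_eq_single p]
      · refine Finset.sum_congr rfl fun t _ => ?_
        rw [map_smul]
        congr 1
        exact (D p).c.R_I _
      · intro p' _ hp'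
        refine Finset.sum_eq_zero fun t _ => ?_
        rw [map_smul]
        have h1 : (D p).c.R (c ⟨p', t⟩) = 0 := by
          refine (D p').c.R_kmap_I_ne (D p).c ?_ LinearMap.id (w p' t)
          intro h2
          apply hp'
          have h3 : (p.2 : Finset (Idx a b)) = p'.2 := Finset.map_injective _ h2
          have h4 : p.1 = p'.1 := by
            apply Fin.ext
            rw [← hcard p, ← hcard p', h3]
          obtain ⟨j, T, hT⟩ := p
          obtain ⟨j', T', hT'⟩ := p'
          simp only at h3 h4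
          subst h4
          subst h3
          rfl
        rw [h1, smul_zero]
      · intro h
        exact absurd (mem_univ _) h
    refine hwB p (fun t => r ⟨p, t⟩) ?_ s
    rw [← hR, ← hgf, (D p).c.R_kD E]
    refine ⟨(D p).c.R g, ?_, rfl⟩
    apply (D p).c.R_kdeg
    have h5 := hJ p
    have h6 : ((p.2 : Finset (Idx a b)).map
      (Function.Embedding.inl : Idx a b ↪ Idx a b ⊕ Y)).card + (i - p.1 + 1) = i + 1 := by omega
    rw [h6]
    exact hg
  · intro s
    exact (D s.1).finrank_gen_I hE _ (hne s)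
  · intro K hK hKst hKG
    have hpi := hfam.pi (α := S)
    have hspan : ⊤ ≤ Submodule.span k {v : S → Finset (Idx a b ⊕ Y) → M |
        ∀ p : JJ a b, ∃ r : k, ((θ (el k p p)).compLeft S) v = r • v} := by
      let eP : Module.Basis (Σ _ : S, Σ _ : Finset (Idx a b ⊕ Y), I) k
        (S → Finset (Idx a b ⊕ Y) → M) := Pi.basis fun _ => eC
      rw [← eP.span_eq]
      refine Submodule.span_mono ?_
      rintro _ ⟨⟨T, i⟩, rfl⟩ p
      refine ⟨χC i p, ?_⟩
      have h1 : eP ⟨T, i⟩ = Pi.single T (eC i) := Pi.basis_apply _ _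
      rw [h1]
      funext U
      change θ (el k p p) ((Pi.single T (eC i) : S → Finset (Idx a b ⊕ Y) → M) U) =
        χC i p • (Pi.single T (eC i) : S → Finset (Idx a b ⊕ Y) → M) U
      by_cases hU : U = T
      · subst hU
        rw [Pi.single_eq_same, hχC]
      · rw [Pi.single_eq_of_ne hU, map_zero, smul_zero]
    obtain ⟨f, hf, hf0, t, ht⟩ := hpi.exists_sing pos hspan K hK
      (fun u v f hf => hKst (el k u v) f hf)
    refine ⟨f, hf, hf0, fun s => ?_⟩
    refine hfam.sing_in_gen bl_pos_inj eC χC hχC (θ '' (blk k a b).low) ?_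
      ((D s.1).isSing_I (hlow s.1) E (w s.1 s.2)) (m := t) ?_ (hKG f hf s)
    · rintro _ ⟨y, hy, rfl⟩
      refine low_mem y hy ((Submodule.span k _).comap θ) ?_
      intro u v huv hlt
      exact Submodule.subset_span ⟨u, v, huv, hlt, rfl⟩
    · refine ⟨fun u => ?_, fun u v huv hlt => ?_⟩
      · exact congrFun (ht.1 u) s
      · exact congrFun (ht.2 u v huv hlt) s

end Horr46
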