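import Pool.Agent.Horrocks46U.Defs
import Pool.Agent.Horrocks46U.Fam

/-!
Matrix coordinates and further variables: the action on chains, and the projection to the component
at a set of further variables.
-/

open Finset

set_option linter.unusedSectionVars false

namespace Horr46

open Horr

section prj

variable {κ Y : Type*} [Fintype κ] [DecidableEq κ] [Fintype Y] [DecidableEq Y]
variable {k : Type*} [Field k] {V : Type*} [AddCommGroup V] [Module k V]

/-- the component at the subset `J` of `Y` -/
def prj (k : Type*) [Field k] {κ Y : Type*} {V : Type*} [AddCommGroup V] [Module k V]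
    (J : Finset Y) : (Finset (κ ⊕ Y) → V) →ₗ[k] (Finset κ → V) where
  toFun f U := f (U.disjSum J)
  map_add' _ _ := rfl
  map_smul' _ _ := rfl

lemma prj_apply (J : Finset Y) (f : Finset (κ ⊕ Y) → V) (U : Finset κ) :
    prj k J f U = f (U.disjSum J) := rfl

/-- the signs `E` restrict to the signs `E₀` at every subset of `Y` -/
def RestrTo (E : Inc (κ ⊕ Y)) (E₀ : Inc κ) : Prop :=
  ∀ (l : κ) (U : Finset κ) (J : Finset Y), E.e (Sum.inl l) (U.disjSum J) = E₀.e l U

lemma insert_inl_disjSum (l : κ) (U : Finset κ) (J : Finset Y) :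
    insert (Sum.inl l) (U.disjSum J) = (insert l U).disjSum J := by
  ext x
  rcases x with x | x <;> simp

lemma erase_inl_disjSum (l : κ) (U : Finset κ) (J : Finset Y) :
    (U.disjSum J).erase (Sum.inl l) = (U.erase l).disjSum J := by
  ext x
  rcases x with x | x <;> simp

variable {E : Inc (κ ⊕ Y)} {E₀ : Inc κ} (hE : RestrTo E E₀) (J : Finset Y)

include hE in
lemma prj_an (l : κ) (f : Finset (κ ⊕ Y) → V) :
    prj k J (an k E (Sum.inl l) f) = an k E₀ l (prj k J f) := by
  funext U
  rw [prj_apply, an_apply, an_apply]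
  by_cases h : l ∈ U
  · rw [if_pos h, if_pos (by simpa using h)]
  · rw [if_neg h, if_neg (by simpa using h), hE, insert_inl_disjSum]
    rfl

include hE in
lemma prj_cr (l : κ) (f : Finset (κ ⊕ Y) → V) :
    prj k J (cr k E (Sum.inl l) f) = cr k E₀ l (prj k J f) := by
  funext U
  rw [prj_apply, cr_apply, cr_apply]
  by_cases h : l ∈ U
  · rw [if_pos h, if_pos (by simpa using h), erase_inl_disjSum, hE]
    rfl
  · rw [if_neg h, if_neg (by simpa using h)]

include hE in
lemma prj_Psi (D : Matrix κ κ k) (f : Finset (κ ⊕ Y) → V) :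
    prj k J (Psi k E (Matrix.fromBlocks D 0 0 0) f) = Psi k E₀ D (prj k J f) := by
  rw [Psi_eq, Psi_eq]
  simp only [LinearMap.sum_apply, LinearMap.smul_apply, Module.End.mul_apply, map_sum, map_smul,
    Fintype.sum_sum_type, Matrix.fromBlocks_apply₁₁, Matrix.fromBlocks_apply₁₂,
    Matrix.fromBlocks_apply₂₁, Matrix.fromBlocks_apply₂₂, Matrix.zero_apply, zero_smul,
    Finset.sum_const_zero, add_zero]
  refine Finset.sum_congr rfl fun m _ => Finset.sum_congr rfl fun l _ => ?_
  rw [prj_cr hE, prj_an hE]

/-- action on a chain with values on sets of which the span is preserved -/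
lemma Psi_supp {ι : Type*} [Fintype ι] [DecidableEq ι] (E : Inc ι) (D : Matrix ι ι k) (r : k)
    (f : Finset ι → V) (h : ∀ U, f U ≠ 0 → (∀ l ∈ U, ∀ m, m ∉ U → D m l = 0) ∧
      ∑ l ∈ U, D l l = r) : Psi k E D f = r • f := by
  have h1 : f = ∑ U, Pi.single U (f U) := (Finset.univ_sum_single f).symm
  have h2 : ∀ U, Psi k E D (Pi.single U (f U)) = r • (Pi.single U (f U) : Finset ι → V) := by
    intro U
    by_cases hU : f U = 0
    · rw [hU, Pi.single_zero, map_zero, smul_zero]
    · obtain ⟨h3, h4⟩ := h U hU
      rw [Psi_single E D U h3, h4]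
  calc Psi k E D f = Psi k E D (∑ U, Pi.single U (f U)) := by rw [← h1]
    _ = ∑ U, r • (Pi.single U (f U) : Finset ι → V) := by
      rw [map_sum]
      exact Finset.sum_congr rfl fun U _ => h2 U
    _ = r • f := by rw [← Finset.smul_sum, ← h1]

end prj

section act

variable {k : Type*} [Field k] {o : Type} [Fintype o] [DecidableEq o] {a b : o → ℕ}
variable {Y : Type} [Fintype Y] [DecidableEq Y]

/-- the matrix of the action on the span of all variables -/
def uMat (Y : Type) (x : GlGl k a b) : Matrix (Idx a b ⊕ Y) (Idx a b ⊕ Y) k :=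
  Matrix.fromBlocks (actMat x) 0 0 0

/-- the Lie data for matrix coordinates and further variables -/
def uAct (k : Type*) [Field k] {o : Type} [Fintype o] [DecidableEq o] (a b : o → ℕ)
    (Y : Type) [Fintype Y] [DecidableEq Y] : Act (Idx a b ⊕ Y) k (GlGl k a b) where
  br x y := x * y - y * x
  tr := transp
  D :=
    { toFun := uMat Y
      map_add' := by
        intro x y
        unfold uMat
        rw [actMat_add, Matrix.fromBlocks_add, add_zero, add_zero, add_zero]
      map_smul' := by
        intro r x
        unfold uMat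
        rw [actMat_smul, RingHom.id_apply, Matrix.fromBlocks_smul, smul_zero, smul_zero,
          smul_zero] }
  D_br x y := by
    change uMat Y (x * y - y * x) = uMat Y x * uMat Y y - uMat Y y * uMat Y x
    unfold uMat
    rw [actMat_br, Matrix.fromBlocks_multiply, Matrix.fromBlocks_multiply, sub_eq_add_neg,
      sub_eq_add_neg, Matrix.fromBlocks_neg, Matrix.fromBlocks_add]
    simp
  D_tr x := by
    change uMat Y (transp x) = (uMat Y x).transpose
    unfold uMat
    rw [actMat_transp, Matrix.fromBlocks_transpose, Matrix.transpose_zero, Matrix.transpose_zero,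
      Matrix.transpose_zero]
  low := (blk k a b).low
  up := (blk k a b).up
  dec := (blk k a b).dec
  tr_tr x := rfl

lemma uAct_D (x : GlGl k a b) : (uAct k a b Y).D x = uMat Y x := rfl

variable {M : Type*} [AddCommGroup M] [Module k M] [Module.Finite k M]

/-- comparison with the trivial module -/
theorem finrank_gen_ge {E : Inc (Idx a b ⊕ Y)} {E₀ : Inc (Idx a b)} (hE : RestrTo E E₀)
    (ρ : GlGl k a b →ₗ[k] Module.End k M) (c : Finset (Idx a b ⊕ Y) → M) (T : Finset (Idx a b))
    (J : Finset Y) (v : M) (hcT : c (T.disjSum J) = v) (hc : ∀ U, U ≠ T → c (U.disjSum J) = 0)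
    (φ : M →ₗ[k] k) (hφv : φ v = 1) (hφ : ∀ y ∈ (blk k a b).low, ∀ z, φ (ρ y z) = 0) :
    Module.finrank k (gen (tot (blk k a b) E₀ (0 : GlGl k a b →ₗ[k] Module.End k k) ''
      (blk k a b).low) (Pi.single T 1)) ≤
    Module.finrank k (gen (tot (uAct k a b Y) E ρ '' (uAct k a b Y).low) c) := by
  refine finrank_gen_le _ _ _ (prj k J ∘ₗ mp (Idx a b ⊕ Y) φ) ?_ c _ ?_
  · intro y hy w
    rw [LinearMap.comp_apply, LinearMap.comp_apply, tot_apply, tot_apply, map_add, map_add, mp_Psi,
      uAct_D, uMat, prj_Psi hE, blk_D]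
    congr 1
    funext U
    rw [prj_apply, mp_apply, pt_apply, pt_apply, hφ y hy, LinearMap.zero_apply,
      LinearMap.zero_apply]
  · funext U
    rw [LinearMap.comp_apply, prj_apply, mp_apply]
    by_cases hU : U = T
    · subst hU
      rw [hcT, hφv, Pi.single_eq_same]
    · rw [hc U hU, map_zero, Pi.single_eq_of_ne hU]

end act

end Horr46
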